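import Mathlib
import Pool.Agent.Y373.HV.All

set_option autoImplicit false

namespace Pool.Agent.Results.MP_91840b_co.HVector

open Finset Polynomial

open Classical in
/-- All-terminal reliability: the probability that the spanning subgraph formed by the operating
edges is connected, when each edge of `G` operates independently with probability `p`. -/
noncomputable def Rel {V : Type*} [Fintype V] (G : SimpleGraph V) (p : ℝ) : ℝ :=
  ∑ S ∈ G.edgeFinset.powerset,
    if (SimpleGraph.fromEdgeSet (S : Set (Sym2 V))).Connected then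
      p ^ S.card * (1 - p) ^ (G.edgeFinset.card - S.card) else 0

/-- The graph `L_{n,m}`, `m = s(s-1)/2 + k + (n-s-1)`, on the vertices `0,...,n-1`:
the vertices `0,...,s-1` form a complete graph, vertex `s` is joined to the vertices `0,...,k-1`,
and every vertex `j > s` is joined, among the smaller vertices, only to the vertex `f j`. -/
def L (n s k : ℕ) (f : ℕ → ℕ) : SimpleGraph (Fin n) where
  Adj i j := i ≠ j ∧ (max i.1 j.1 < s ∨ (max i.1 j.1 = s ∧ min i.1 j.1 < k) ∨
    (s < max i.1 j.1 ∧ min i.1 j.1 = f (max i.1 j.1)))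
  symm := ⟨fun i j h => by
    rw [max_comm j.1 i.1, min_comm j.1 i.1]
    exact ⟨h.1.symm, h.2⟩⟩
  loopless := ⟨fun _ h => h.1 rfl⟩

/-- `h` is the H-vector of `G` (a graph with `n = |V|` vertices and `m` edges):
`Rel(G;p) = p^(n-1) * ∑_{i=0}^{m-n+1} h_i (1-p)^i` for all `p`. -/
def IsHVector {V : Type*} [Fintype V] (G : SimpleGraph V) (h : ℕ → ℝ) : Prop :=
  ∀ p : ℝ, Rel G p = p ^ (Fintype.card V - 1) *
    ∑ i ∈ range (G.edgeSet.ncard + 1 - Fintype.card V + 1), h i * (1 - p) ^ i

theorem Rel_eq {V : Type*} [Fintype V] (G : SimpleGraph V) (p : ℝ) :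
    Rel G p = Pool.Agent.Y373.HV.Rel G p := rfl

theorem L_eq (n s k : ℕ) (f : ℕ → ℕ) : L n s k f = Pool.Agent.Y373.HV.L n s k f := rfl

/-- the polynomial with the coefficients `h i`, `i < N` -/
noncomputable def pol (h : ℕ → ℝ) (N : ℕ) : ℝ[X] := ∑ i ∈ range N, C (h i) * X ^ i

theorem pol_coeff (h : ℕ → ℝ) (N i : ℕ) (hi : i < N) : (pol h N).coeff i = h i := by
  unfold pol
  rw [finsetSum_coeff, Finset.sum_eq_single i]
  · rw [coeff_C_mul, coeff_X_pow, if_pos rfl, mul_one]
  · intro j _ hj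
    rw [coeff_C_mul, coeff_X_pow, if_neg (Ne.symm hj), mul_zero]
  · intro h
    exact absurd (mem_range.2 hi) h

theorem pol_eval (h : ℕ → ℝ) (N : ℕ) (x : ℝ) :
    (pol h N).eval x = ∑ i ∈ range N, h i * x ^ i := by
  unfold pol
  rw [eval_finsetSum]
  refine Finset.sum_congr rfl fun i _ => ?_
  simp

/-- the H-vector exists -/
theorem hvec_exists {V : Type*} [Fintype V] (G : SimpleGraph V) (hG : G.Connected) :
    ∃ h, IsHVector G h := by
  obtain ⟨H, h1, h2⟩ := Pool.Agent.Y373.HV.hform_exists G hG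
  refine ⟨H.coeff, fun p => ?_⟩
  rw [Rel_eq, h2 p, Polynomial.eval_eq_sum_range' (Nat.lt_succ_of_le h1)]

/-- the H-vector is unique -/
theorem hvec_unique {V : Type*} [Fintype V] (G : SimpleGraph V) (hG : G.Connected)
    (h h' : ℕ → ℝ) (h1 : IsHVector G h) (h2 : IsHVector G h') (i : ℕ)
    (hi : i ≤ G.edgeSet.ncard + 1 - Fintype.card V) : h i = h' i := by
  have e1 := Pool.Agent.Y373.HV.Hp_unique G hG
    (pol h (G.edgeSet.ncard + 1 - Fintype.card V + 1)) (fun p => by
      rw [pol_eval]; exact h1 p)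
  have e2 := Pool.Agent.Y373.HV.Hp_unique G hG
    (pol h' (G.edgeSet.ncard + 1 - Fintype.card V + 1)) (fun p => by
      rw [pol_eval]; exact h2 p)
  rw [← pol_coeff h _ i (Nat.lt_succ_of_le hi), ← pol_coeff h' _ i (Nat.lt_succ_of_le hi), e1, e2]

/-- **Coefficientwise comparison of the H-vectors.**  Let `n ≥ 2` and `n-1 ≤ m ≤ n(n-1)/2`.  The
parameters `s, k` of `L_{n,m}` exist; for every choice of them and of the places `f` where the
bridges are attached, `L_{n,m}` is a connected graph with `m` edges which has an H-vector, and every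
connected simple graph `G` with `n` vertices and `m` edges has exactly one H-vector and satisfies
`H_i(L_{n,m}) ≤ H_i(G)` for all `0 ≤ i ≤ m-n+1`. -/
theorem result.{u} (n m : ℕ) (hn : 2 ≤ n) (hm1 : n - 1 ≤ m) (hm2 : m ≤ n.choose 2) :
    (∃ s k, 1 ≤ k ∧ k ≤ s ∧ s + 1 ≤ n ∧ m = s.choose 2 + k + (n - s - 1)) ∧
    ∀ s k, 1 ≤ k → k ≤ s → s + 1 ≤ n → m = s.choose 2 + k + (n - s - 1) →
    ∀ f : ℕ → ℕ, (∀ j, s < j → j < n → f j < j) →
      (L n s k f).Connected ∧ (L n s k f).edgeSet.ncard = m ∧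
      (∃ hL, IsHVector (L n s k f) hL) ∧
      ∀ (V : Type u) [Fintype V] (G : SimpleGraph V), Fintype.card V = n → G.Connected →
        G.edgeSet.ncard = m →
        (∃ hG, IsHVector G hG) ∧
        (∀ hG hG' : ℕ → ℝ, IsHVector G hG → IsHVector G hG' →
          ∀ i, i ≤ m + 1 - n → hG i = hG' i) ∧
        ∀ hL hG : ℕ → ℝ, IsHVector (L n s k f) hL → IsHVector G hG →
          ∀ i, i ≤ m + 1 - n → hL i ≤ hG i := by
  refine ⟨Pool.Agent.Y373.HV.exists_params n m hn hm1 hm2, ?_⟩
  intro s k hk hks hsn hm f hf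
  have hLc : (L n s k f).Connected := Pool.Agent.Y373.HV.L_connected n s k hk hks hsn f hf
  have hLe : (L n s k f).edgeSet.ncard = m := by
    rw [hm]; exact Pool.Agent.Y373.HV.L_edges s k hk hks f n hsn hf
  refine ⟨hLc, hLe, hvec_exists _ hLc, ?_⟩
  intro V _ G hV hG hGm
  refine ⟨hvec_exists G hG, ?_, ?_⟩
  · intro h h' h1 h2 i hi
    exact hvec_unique G hG h h' h1 h2 i (by rw [hGm, hV]; exact hi)
  · intro hL h h1 h2 i hi
    have key := Pool.Agent.Y373.HV.hvec Pool.Agent.Y373.HV.main n s k hk hks hsn f hf hV G hG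
      (hGm.trans hm) (pol hL (m + 1 - n + 1)) (pol h (m + 1 - n + 1))
      (fun p => by
        rw [pol_eval]
        have := h1 p
        rw [Fintype.card_fin, hLe] at this
        exact this)
      (fun p => by
        rw [pol_eval]
        have := h2 p
        rw [hV, hGm] at this
        exact this) i
    rwa [pol_coeff _ _ _ (Nat.lt_succ_of_le hi), pol_coeff _ _ _ (Nat.lt_succ_of_le hi)] at key

end Pool.Agent.Results.MP_91840b_co.HVector
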